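import Mathlib

namespace Pool.Agent.Results.MP_fd05bb_co.Counter

/-- `(N, +, mul)` is a nearfield with multiplicative identity `one`. -/
structure IsNearfield {N : Type} [AddCommGroup N] (mul : N → N → N) (one : N) : Prop where
  one_ne : one ≠ 0
  mul_ne : ∀ x y, x ≠ 0 → y ≠ 0 → mul x y ≠ 0
  assoc : ∀ x y z, x ≠ 0 → y ≠ 0 → z ≠ 0 → mul (mul x y) z = mul x (mul y z)
  ident : ∀ x, x ≠ 0 → mul one x = x ∧ mul x one = x
  inver : ∀ x, x ≠ 0 → ∃ y, y ≠ 0 ∧ mul x y = one ∧ mul y x = one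
  mul_zero : ∀ x, mul x 0 = 0
  distrib : ∀ x y z, mul (x + y) z = mul x z + mul y z

/-- `G` is a subgroup of the multiplicative group of nonzero elements. -/
def IsSub {N : Type} [Zero N] (mul : N → N → N) (one : N) (G : Set N) : Prop :=
  0 ∉ G ∧ one ∈ G ∧ (∀ x ∈ G, ∀ y ∈ G, mul x y ∈ G) ∧ ∀ x ∈ G, ∃ y ∈ G, mul x y = one

/-- The blocks `G φ`, `φ : x ↦ x s + a`, `s ∈ S`. -/
def blocks {N : Type} [Add N] (mul : N → N → N) (S G : Set N) : Set (Set N) :=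
  {B | ∃ s ∈ S, ∃ a, B = (fun x => mul x s + a) '' G}

@[ext] structure K where
  a : ZMod 7
  b : ZMod 7
  c : ZMod 7
  deriving DecidableEq, Fintype

instance : Zero K := ⟨⟨0, 0, 0⟩⟩
instance : One K := ⟨⟨1, 0, 0⟩⟩
instance : Add K := ⟨fun x y => ⟨x.a + y.a, x.b + y.b, x.c + y.c⟩⟩
instance : Neg K := ⟨fun x => ⟨-x.a, -x.b, -x.c⟩⟩
instance : Mul K := ⟨fun x y => ⟨x.a * y.a + 2 * (x.b * y.c + x.c * y.b),
  x.a * y.b + x.b * y.a + 2 * (x.c * y.c), x.a * y.c + x.b * y.b + x.c * y.a⟩⟩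

@[simp] theorem z_a : (0 : K).a = 0 := rfl
@[simp] theorem z_b : (0 : K).b = 0 := rfl
@[simp] theorem z_c : (0 : K).c = 0 := rfl
@[simp] theorem o_a : (1 : K).a = 1 := rfl
@[simp] theorem o_b : (1 : K).b = 0 := rfl
@[simp] theorem o_c : (1 : K).c = 0 := rfl
@[simp] theorem add_a (x y : K) : (x + y).a = x.a + y.a := rfl
@[simp] theorem add_b (x y : K) : (x + y).b = x.b + y.b := rfl
@[simp] theorem add_c (x y : K) : (x + y).c = x.c + y.c := rfl
@[simp] theorem neg_a (x : K) : (-x).a = -x.a := rfl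
@[simp] theorem neg_b (x : K) : (-x).b = -x.b := rfl
@[simp] theorem neg_c (x : K) : (-x).c = -x.c := rfl
@[simp] theorem mul_a (x y : K) : (x * y).a = x.a * y.a + 2 * (x.b * y.c + x.c * y.b) := rfl
@[simp] theorem mul_b (x y : K) : (x * y).b = x.a * y.b + x.b * y.a + 2 * (x.c * y.c) := rfl
@[simp] theorem mul_c (x y : K) : (x * y).c = x.a * y.c + x.b * y.b + x.c * y.a := rfl

instance : CommRing K := CommRing.ofMinimalAxioms
  (by intros; ext <;> simp <;> ring) (by intros; ext <;> simp) (by intros; ext <;> simp)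
  (by intros; ext <;> simp <;> ring) (by intros; ext <;> simp <;> ring) (by intros; ext <;> simp)
  (by intros; ext <;> simp <;> ring)

def nm (x : K) : ZMod 7 := x.a * x.a * x.a + 2 * (x.b * x.b * x.b) + 4 * (x.c * x.c * x.c) -
  6 * (x.a * x.b * x.c)

theorem nm_mul (x y : K) : nm (x * y) = nm x * nm y := by
  simp only [nm, mul_a, mul_b, mul_c]
  ring

theorem allK {P : K → Prop} (h : ∀ a b c, P ⟨a, b, c⟩) (x : K) : P x := h x.a x.b x.c

theorem nm_zero : ∀ x : K, nm x = 0 → x = 0 := allK (by decide +kernel)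

instance : Fact (Nat.Prime 7) := ⟨by norm_num⟩

instance : NoZeroDivisors K := ⟨fun {x y} h => by
  have : nm x * nm y = 0 := by rw [← nm_mul, h]; rfl
  exact (mul_eq_zero.mp this).imp (nm_zero x) (nm_zero y)⟩

instance : Nontrivial K := ⟨0, 1, by decide⟩

instance : IsDomain K := NoZeroDivisors.to_isDomain K

theorem cardK : Fintype.card K = 343 := by
  rw [Fintype.card_congr (⟨fun x => (x.a, x.b, x.c), fun p => ⟨p.1, p.2.1, p.2.2⟩, fun _ => rfl,
    fun _ => rfl⟩ : K ≃ ZMod 7 × ZMod 7 × ZMod 7)]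
  simp

def sg (t : ZMod 7) (x : K) : K := ⟨x.a, t * x.b, t * t * x.c⟩

def ta (y : K) : ZMod 7 := nm y * nm y

def circ (x y : K) : K := sg (ta y) x * y

theorem ta3 {y : K} (h : y ≠ 0) : ta y * ta y * ta y = 1 := by
  have h1 : ∀ t : ZMod 7, t ≠ 0 → t * t * (t * t) * (t * t) = 1 := by decide
  exact h1 _ (fun e => h (nm_zero y e))

theorem sg_mul {t : ZMod 7} (h : t * t * t = 1) (x y : K) : sg t (x * y) = sg t x * sg t y := by
  ext
  · simp only [sg, mul_a]; linear_combination (-2 * (x.b * y.c + x.c * y.b)) * h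
  · simp only [sg, mul_b]; linear_combination (-2 * t * (x.c * y.c)) * h
  · simp only [sg, mul_c]; ring

theorem sg_sg (s t : ZMod 7) (x : K) : sg s (sg t x) = sg (t * s) x := by
  ext <;> simp only [sg] <;> ring

theorem sg_one (x : K) : sg 1 x = x := by ext <;> simp [sg]

theorem nm_sg {t : ZMod 7} (h : t * t * t = 1) (x : K) : nm (sg t x) = nm x := by
  simp only [nm, sg]
  linear_combination (2 * (x.b * x.b * x.b) + 4 * (x.c * x.c * x.c) * (t * t * t + 1) -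
    6 * (x.a * x.b * x.c)) * h

theorem nm_circ (x : K) {y : K} (h : y ≠ 0) : nm (circ x y) = nm x * nm y := by
  rw [circ, nm_mul, nm_sg (ta3 h)]

theorem inv_circ (x : K) (h : x ≠ 0) : ∃ y, nm x * nm y = 1 ∧ circ x y = 1 ∧ circ y x = 1 := by
  obtain ⟨u, hu⟩ := (Finite.isField_of_domain K).mul_inv_cancel h
  have h3 := ta3 h
  have h6 : ta x * ta x * (ta x * ta x) * (ta x * ta x) = 1 := by
    linear_combination (ta x * ta x * ta x + 1) * h3
  have hn : nm x * nm u = 1 := by rw [← nm_mul, hu]; rfl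
  have ht : ta (sg (ta x * ta x) u) = ta x * ta x := by
    have h7 : ∀ s t : ZMod 7, s * t = 1 → t * t = s * s * (s * s) := by decide
    rw [ta, nm_sg h6]
    exact h7 _ _ hn
  refine ⟨sg (ta x * ta x) u, by rw [nm_sg h6, hn], ?_, ?_⟩
  · rw [circ, ht, ← sg_mul h6, hu]; ext <;> simp [sg]
  · rw [circ, sg_sg, h3, sg_one, mul_comm, hu]

theorem nearfield : IsNearfield circ (1 : K) where
  one_ne := one_ne_zero
  mul_ne := fun x y hx hy h => by
    have := nm_circ x hy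
    rw [h] at this
    rcases mul_eq_zero.mp this.symm with h1 | h1
    · exact hx (nm_zero _ h1)
    · exact hy (nm_zero _ h1)
  assoc := fun x y z _ hy hz => by
    have h : ta (circ y z) = ta y * ta z := by rw [ta, nm_circ y hz, ta, ta]; ring
    rw [circ, circ, sg_mul (ta3 hz), sg_sg, circ, h, circ, mul_assoc]
  ident := fun x _ => by
    constructor
    · have : sg (ta x) 1 = 1 := by ext <;> simp [sg]
      rw [circ, this, one_mul]
    · have : ta 1 = 1 := by decide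
      rw [circ, this, sg_one, mul_one]
  inver := fun x hx => by
    obtain ⟨y, h1, h2⟩ := inv_circ x hx
    refine ⟨y, ?_, h2⟩
    rintro rfl
    have : nm 0 = 0 := by decide
    rw [this, MulZeroClass.mul_zero] at h1
    exact zero_ne_one h1
  mul_zero := fun x => MulZeroClass.mul_zero _
  distrib := fun x y z => by
    have : sg (ta z) (x + y) = sg (ta z) x + sg (ta z) y := by ext <;> simp [sg] <;> ring
    rw [circ, this, add_mul, circ, circ]

def SF : Finset K := Finset.univ.filter fun y => nm y * nm y * nm y = 1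

def GF : Finset K := {⟨1, 0, 0⟩, ⟨0, 3, 1⟩, ⟨1, 4, 1⟩, ⟨2, 0, 0⟩, ⟨0, 6, 2⟩, ⟨2, 1, 2⟩, ⟨4, 0, 0⟩,
  ⟨0, 5, 4⟩, ⟨4, 2, 4⟩}

def mu : List K := [⟨0, 0, 1⟩, ⟨0, 0, 2⟩, ⟨0, 0, 4⟩, ⟨0, 1, 0⟩, ⟨0, 2, 0⟩, ⟨0, 4, 0⟩, ⟨1, 0, 0⟩,
  ⟨2, 0, 0⟩, ⟨4, 0, 0⟩]

theorem mu_mem : ∀ x : K, x * x * x * (x * x * x) * (x * x * x) = 1 → x ∈ mu :=
  allK (by decide +kernel)

def cu (x : K) : ZMod 7 := nm (x + -1) * nm (x + -1) * nm (x + -1)

theorem mu_chk : ∀ x ∈ mu, ∀ y ∈ mu, x ≠ 1 → cu x = cu y → x ≠ y → ∀ x' ∈ mu, x' ≠ 1 → x ≠ x' →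
    ∀ y' ∈ mu, (y + -1) * (x' + -1) ≠ (y' + -1) * (x + -1) := by decide +kernel

theorem keyK (r x x' y y' : K) (hr : r ^ 171 = 1) (hx : x ^ 9 = 1) (hx' : x' ^ 9 = 1)
    (hy : y ^ 9 = 1) (hy' : y' ^ 9 = 1) (n1 : x ≠ 1) (n2 : x' ≠ 1) (n3 : x ≠ x')
    (e1 : r * (x - 1) = y - 1) (e2 : r * (x' - 1) = y' - 1) : r = 1 := by
  have hp : ∀ n : ℕ, nm (r ^ n) = nm r ^ n := by
    intro n
    induction n with
    | zero => simp only [pow_zero]; decide
    | succ n ih => rw [pow_succ, nm_mul, ih, pow_succ]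
  have h1 : nm r * nm r * nm r = 1 := by
    have h7 : ∀ t : ZMod 7, t ^ 171 = 1 → t * t * t = 1 := by decide +kernel
    apply h7
    rw [← hp, hr]
    decide
  have m : ∀ z : K, z ^ 9 = 1 → z ∈ mu := fun z h => mu_mem z (by rw [← h]; ring)
  by_cases hxy : x = y
  · subst hxy
    exact mul_right_cancel₀ (sub_ne_zero.mpr n1) (by rw [e1, one_mul])
  refine (mu_chk x (m _ hx) y (m _ hy) n1 ?_ hxy x' (m _ hx') n2 n3 y' (m _ hy') ?_).elim
  · simp only [cu, ← sub_eq_add_neg, ← e1, nm_mul]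
    linear_combination (-(nm (x - 1) * nm (x - 1) * nm (x - 1))) * h1
  · simp only [← sub_eq_add_neg, ← e1, ← e2]
    ring

theorem keyF (F : Type) [Field F] [Fintype F] (hF : Fintype.card F = 343) (S G : Subgroup Fˣ)
    (hS : Nat.card S = 171) (hG : Nat.card G = 9) (hGS : ∀ x : Fˣ, x ^ 9 = 1 → x ^ 171 = 1)
    (B B' : Set F)
    (hB : B ∈ blocks (· * ·) (Units.val '' (S : Set Fˣ)) (Units.val '' (G : Set Fˣ)))
    (hB' : B' ∈ blocks (· * ·) (Units.val '' (S : Set Fˣ)) (Units.val '' (G : Set Fˣ)))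
    (p q t : F) (n1 : q ≠ p) (n2 : t ≠ p) (n3 : q ≠ t) (hp : p ∈ B) (hq : q ∈ B) (ht : t ∈ B)
    (hp' : p ∈ B') (hq' : q ∈ B') (ht' : t ∈ B') : B ⊆ B' := by
  classical
  letI : Field K := Fintype.fieldOfDomain K
  let ψ : F ≃+* K := FiniteField.ringEquivOfCardEq (hF.trans cardK.symm)
  have pS : ∀ s ∈ S, s ^ 171 = 1 := fun s hs => by
    have := pow_card_eq_one' (x := (⟨s, hs⟩ : S))
    rw [hS] at this
    exact congrArg Subtype.val this
  have pG : ∀ s ∈ G, s ^ 9 = 1 := fun s hs => by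
    have := pow_card_eq_one' (x := (⟨s, hs⟩ : G))
    rw [hG] at this
    exact congrArg Subtype.val this
  obtain ⟨_, ⟨s, hs, rfl⟩, a, rfl⟩ := hB
  obtain ⟨_, ⟨s', hs', rfl⟩, a', rfl⟩ := hB'
  obtain ⟨_, ⟨x1, hx1, rfl⟩, rfl⟩ := hp
  obtain ⟨_, ⟨x2, hx2, rfl⟩, rfl⟩ := hq
  obtain ⟨_, ⟨x3, hx3, rfl⟩, rfl⟩ := ht
  obtain ⟨_, ⟨y1, hy1, rfl⟩, e1⟩ := hp'
  obtain ⟨_, ⟨y2, hy2, rfl⟩, e2⟩ := hq'
  obtain ⟨_, ⟨y3, hy3, rfl⟩, e3⟩ := ht'
  simp only at e1 e2 e3 n1 n2 n3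
  have pw : ∀ (u : Fˣ) (n : ℕ), u ^ n = 1 → ψ (u : F) ^ n = 1 := fun u n h => by
    rw [← map_pow, ← Units.val_pow_eq_pow_val, h, Units.val_one, map_one]
  have g9 : ∀ u ∈ G, ∀ v ∈ G, ψ ((u / v : Fˣ) : F) ^ 9 = 1 := fun u hu v hv =>
    pw _ _ (pG _ (G.div_mem hu hv))
  have hr : ψ ((x1 / y1 * (s / s') : Fˣ) : F) ^ 171 = 1 := pw _ _ (by
    rw [mul_pow, hGS _ (pG _ (G.div_mem hx1 hy1)), pS _ (S.div_mem hs hs'), one_mul])
  have z1 := x1.ne_zero
  have z2 := y1.ne_zero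
  have z3 := s'.ne_zero
  have hne : ∀ u v : Fˣ, (u : F) * s + a ≠ v * s + a → ψ ((u / x1 : Fˣ) : F) ≠ ψ ((v / x1 : Fˣ) : F) := by
    intro u v h e
    have := div_left_injective (Units.val_injective (ψ.injective e))
    exact h (by rw [this])
  have hne1 : ∀ u : Fˣ, (u : F) * s + a ≠ x1 * s + a → ψ ((u / x1 : Fˣ) : F) ≠ 1 := by
    intro u h
    simpa using hne u x1 h
  have heq : ∀ u v : Fˣ, (v : F) * s' + a' = u * s + a →
      ψ ((x1 / y1 * (s / s') : Fˣ) : F) * (ψ ((u / x1 : Fˣ) : F) - 1) = ψ ((v / y1 : Fˣ) : F) - 1 := by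
    intro u v h
    rw [← map_one ψ, ← map_sub, ← map_sub, ← map_mul]
    congr 1
    simp only [Units.val_mul, Units.val_div_eq_div_val]
    field_simp
    linear_combination e1 - h
  have h1 := keyK _ _ _ _ _ hr (g9 _ hx2 _ hx1) (g9 _ hx3 _ hx1) (g9 _ hy2 _ hy1) (g9 _ hy3 _ hy1)
    (hne1 _ n1) (hne1 _ n2) (hne _ _ n3) (heq _ _ e2) (heq _ _ e3)
  have h2 : ((x1 / y1 * (s / s') : Fˣ) : F) = 1 := ψ.injective (by rw [h1, map_one])
  simp only [Units.val_mul, Units.val_div_eq_div_val] at h2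
  field_simp at h2
  rintro _ ⟨_, ⟨x, hx, rfl⟩, rfl⟩
  refine ⟨_, ⟨x / x1 * y1, G.mul_mem (G.div_mem hx hx1) hy1, rfl⟩, ?_⟩
  simp only [Units.val_mul, Units.val_div_eq_div_val]
  field_simp
  linear_combination (x1 : F) * e1 + ((x1 : F) - x) * h2

theorem result : ∃ (N : Type) (_ : Fintype N) (_ : AddCommGroup N) (mul : N → N → N) (one : N)
    (S G : Set N), IsNearfield mul one ∧ Fintype.card N = 343 ∧ IsSub mul one S ∧ S.ncard = 171 ∧
    IsSub mul one G ∧ G ⊆ S ∧ G.ncard = 9 ∧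
    ∀ (F : Type) [Field F] [Fintype F], Fintype.card F = 343 → ∀ S' G' : Subgroup Fˣ,
      Nat.card S' = 171 → Nat.card G' = 9 → ¬ ∃ φ : N ≃ F, Set.image φ '' blocks mul S G =
        blocks (· * ·) (Units.val '' (S' : Set Fˣ)) (Units.val '' (G' : Set Fˣ)) := by
  have hS : ∀ y, y ∈ (SF : Set K) ↔ nm y * nm y * nm y = 1 := by simp [SF]
  have h0 : ∀ y ∈ (SF : Set K), y ≠ 0 := by
    rintro y hy rfl
    rw [hS] at hy
    revert hy
    decide
  refine ⟨K, inferInstance, inferInstance, circ, 1, SF, GF, nearfield, cardK,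
    ⟨fun h => h0 0 h rfl, by rw [hS]; decide, ?_, ?_⟩, ?_, ⟨?_, ?_, ?_, ?_⟩, ?_, ?_, ?_⟩
  · intro x hx y hy
    have := h0 y hy
    rw [hS] at hx hy ⊢
    rw [nm_circ x this]
    linear_combination (nm y * nm y * nm y) * hx + hy
  · intro x hx
    obtain ⟨y, h1, h2, -⟩ := inv_circ x (h0 x hx)
    refine ⟨y, ?_, h2⟩
    rw [hS] at hx ⊢
    have h7 : ∀ s t : ZMod 7, s * t = 1 → s * s * s = 1 → t * t * t = 1 := by decide
    exact h7 _ _ h1 hx
  · rw [Set.ncard_coe_finset]; decide +kernel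
  · simp only [Finset.mem_coe]; decide +kernel
  · simp only [Finset.mem_coe]; decide +kernel
  · simp only [Finset.mem_coe]; decide +kernel
  · simp only [Finset.mem_coe]; decide +kernel
  · intro x hx
    rw [hS]
    revert x
    simp only [Finset.mem_coe]
    decide +kernel
  · rw [Set.ncard_coe_finset]; decide +kernel
  · rintro F _ _ hF S' G' hS' hG' ⟨φ, hφ⟩
    let B1 : Set K := (fun x => circ x ⟨0, 3, 1⟩ + ⟨5, 6, 5⟩) '' (GF : Set K)
    let B2 : Set K := (fun x => circ x ⟨0, 3, 2⟩ + ⟨0, 4, 5⟩) '' (GF : Set K)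
    have b1 : B1 ∈ blocks circ (SF : Set K) (GF : Set K) := ⟨_, by rw [hS]; decide, _, rfl⟩
    have b2 : B2 ∈ blocks circ (SF : Set K) (GF : Set K) := ⟨_, by rw [hS]; decide, _, rfl⟩
    have m : ∀ (B : Set K) (x : K), x ∈ B → φ x ∈ φ '' B := fun B x h => Set.mem_image_of_mem φ h
    have := keyF F hF S' G' hS' hG' (fun x h => by
        rw [show 171 = 9 * 19 by norm_num, pow_mul, h, one_pow])
      (φ '' B1) (φ '' B2) (hφ ▸ Set.mem_image_of_mem _ b1) (hφ ▸ Set.mem_image_of_mem _ b2)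
      (φ ⟨0, 0, 0⟩) (φ ⟨5, 5, 0⟩) (φ ⟨2, 1, 2⟩) (φ.injective.ne (by decide))
      (φ.injective.ne (by decide)) (φ.injective.ne (by decide))
      (m _ _ ⟨⟨0, 6, 2⟩, by simp [GF], by decide⟩) (m _ _ ⟨⟨2, 0, 0⟩, by simp [GF], by decide⟩)
      (m _ _ ⟨⟨0, 5, 4⟩, by simp [GF], by decide⟩) (m _ _ ⟨⟨1, 0, 0⟩, by simp [GF], by decide⟩)
      (m _ _ ⟨⟨2, 1, 2⟩, by simp [GF], by decide⟩) (m _ _ ⟨⟨0, 5, 4⟩, by simp [GF], by decide⟩)
    rw [Set.image_subset_image_iff φ.injective] at this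
    obtain ⟨x, hx, h⟩ := this ⟨⟨1, 0, 0⟩, by simp [GF], rfl⟩
    revert x
    simp only [Finset.mem_coe]
    decide +kernel

end Pool.Agent.Results.MP_fd05bb_co.Counter
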